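import Pool.Agent.Q38.GE.Stm

set_option autoImplicit false

/-!
Project GE of helper38, job PEN.
-/

namespace Pool.Agent.Q164.GE

open Q38.GE Matrix

theorem mem_wds {n : ℕ} (N : ℕ) (u : Wd n) : u ∈ wds n N ↔ u.length < N := by
  induction N generalizing u with
  | zero => simp [wds]
  | succ N ih =>
    simp only [wds, Finset.mem_insert, Finset.mem_image, Finset.mem_product, Finset.mem_univ,
      true_and, Prod.exists]
    cases u with
    | nil => simp
    | cons i u =>
      constructor
      · rintro (h | ⟨a, b, h1, h2⟩)
        · simp at h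
        · rw [List.cons.injEq] at h2
          obtain ⟨_, rfl⟩ := h2
          have := (ih b).1 h1
          simp only [List.length_cons]
          omega
      · intro h
        right
        refine ⟨i, u, (ih u).2 ?_, rfl⟩
        simp only [List.length_cons] at h
        omega

section

variable {D : Type} [DivisionRing D] {n p d : ℕ}

/-- the indices -/
abbrev Ix (n p d : ℕ) : Type := {u : Wd n // u ∈ wds n d} × Fin p

/-- the product of the reversed word -/
def PP (c : Wd n → Matrix (Fin p) (Fin p) D) (w : Wd n) : Matrix (Ix n p d) (Ix n p d) D :=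
  ((w.reverse).map (QM d c)).prod

theorem PP_cons (c : Wd n → Matrix (Fin p) (Fin p) D) (i : Fin n) (w : Wd n) :
    PP (d := d) c (i :: w) = PP c w * QM d c i := by
  unfold PP
  rw [List.reverse_cons, List.map_append, List.prod_append]
  simp

theorem row (c : Wd n → Matrix (Fin p) (Fin p) D) (hc : ∀ u, d < u.length → c u = 0)
    (g : Wd n → Matrix (Fin p) (Fin p) D) (g0 : g [] = 1)
    (hg : ∀ w, w ≠ [] → g w = ∑ k ∈ Finset.range w.length, g (w.drop (k + 1)) * c (w.take (k + 1)))
    (h0 : ([] : Wd n) ∈ wds n d) (a : Fin p) (w : Wd n) (v : {u : Wd n // u ∈ wds n d}) (b : Fin p) :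
    PP (d := d) c w (⟨[], h0⟩, a) (v, b) =
      if v.1 <+: w then g (w.drop v.1.length) a b else 0 := by
  induction w generalizing v b with
  | nil =>
    unfold PP
    simp only [List.reverse_nil, List.map_nil, List.prod_nil]
    rw [Matrix.one_apply]
    by_cases hv : v.1 = []
    · have hv' : v = ⟨[], h0⟩ := Subtype.ext hv
      subst hv'
      simp only [List.nil_prefix, if_true, List.drop_nil, g0, Matrix.one_apply]
      by_cases hab : a = b
      · simp [hab]
      · simp [hab]
    · have h1 : ¬ (v.1 <+: []) := by
        rw [List.prefix_nil]; exact hv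
      rw [if_neg h1, if_neg]
      intro h
      apply hv
      have := congrArg (fun q : Ix n p d => q.1.1) h
      exact this.symm
  | cons i w ih =>
    rw [PP_cons, Matrix.mul_apply, Fintype.sum_prod_type]
    rcases v with ⟨v, hv⟩
    cases v with
    | cons j v =>
      have hvl := (mem_wds d (j :: v)).1 hv
      simp only [List.length_cons] at hvl
      have hv' : v ∈ wds n d := (mem_wds d v).2 (by omega)
      have e1 : ∀ (u : {u : Wd n // u ∈ wds n d}) (a' : Fin p),
          PP (d := d) c w (⟨[], h0⟩, a) (u, a') * QM d c i (u, a') (⟨j :: v, hv⟩, b) =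
          if u = ⟨v, hv'⟩ then (if a' = b then
            (if j = i then PP (d := d) c w (⟨[], h0⟩, a) (⟨v, hv'⟩, b) else 0) else 0) else 0 := by
        intro u a'
        have : QM d c i (u, a') ((⟨j :: v, hv⟩ : {u : Wd n // u ∈ wds n d}), b) =
            if j :: v = i :: u.1 ∧ a' = b then 1 else 0 := by
          unfold QM
          rw [if_neg (by simp)]
        rw [this]
        by_cases hu : u = ⟨v, hv'⟩
        · subst hu
          by_cases hab : a' = b
          · subst hab
            by_cases hji : j = i
            · simp [hji]
            · simp [hji]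
          · simp [hab]
        · have : ¬ (j :: v = i :: u.1 ∧ a' = b) := by
            rintro ⟨h1, _⟩
            rw [List.cons.injEq] at h1
            exact hu (Subtype.ext h1.2.symm)
          rw [if_neg this, if_neg hu, mul_zero]
      simp only [e1]
      rw [Finset.sum_eq_single (⟨v, hv'⟩ : {u : Wd n // u ∈ wds n d})]
      · simp only [if_true, Finset.sum_ite_eq', Finset.mem_univ]
        rw [ih]
        by_cases hji : j = i
        · subst hji
          simp only [if_true, List.cons_prefix_cons, true_and, List.length_cons,
            List.drop_succ_cons]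
        · simp only [hji, if_false, List.cons_prefix_cons, false_and]
      · intro u _ hu
        simp [hu]
      · intro h
        exact absurd (Finset.mem_univ _) h
    | nil =>
      have e1 : ∀ (u : {u : Wd n // u ∈ wds n d}),
          ∑ a' : Fin p, PP (d := d) c w (⟨[], h0⟩, a) (u, a') *
            QM d c i (u, a') (⟨[], hv⟩, b) =
          if u.1 <+: w then (g (w.drop u.1.length) * c (i :: u.1)) a b else 0 := by
        intro u
        by_cases hu : u.1 <+: w
        · rw [if_pos hu, Matrix.mul_apply]
          refine Finset.sum_congr rfl fun a' _ => ?_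
          rw [ih, if_pos hu]
          congr 1
        · rw [if_neg hu]
          refine Finset.sum_eq_zero fun a' _ => ?_
          rw [ih, if_neg hu, zero_mul]
      simp only [e1]
      rw [if_pos (List.nil_prefix)]
      simp only [List.length_nil, List.drop_zero]
      rw [hg (i :: w) (by simp)]
      simp only [List.length_cons, List.drop_succ_cons, List.take_succ_cons]
      rw [Matrix.sum_apply]
      have e2 : ∑ u : {u : Wd n // u ∈ wds n d},
          (if u.1 <+: w then (g (w.drop u.1.length) * c (i :: u.1)) a b else 0) =
          ∑ u ∈ (wds n d).filter (fun u => u <+: w), (g (w.drop u.length) * c (i :: u)) a b := by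
        rw [Finset.sum_filter]
        exact Finset.sum_coe_sort (wds n d)
          (fun u => if u <+: w then (g (w.drop u.length) * c (i :: u)) a b else 0)
      rw [e2]
      have e3 : ∑ k ∈ Finset.range (w.length + 1), (g (w.drop k) * c (i :: w.take k)) a b =
          ∑ k ∈ (Finset.range (w.length + 1)).filter (fun k => k < d),
            (g (w.drop k) * c (i :: w.take k)) a b := by
        rw [Finset.sum_filter]
        refine Finset.sum_congr rfl fun k hk => ?_
        by_cases hkd : k < d
        · rw [if_pos hkd]
        · rw [if_neg hkd, hc (i :: w.take k), Matrix.mul_zero, Matrix.zero_apply]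
          rw [Finset.mem_range] at hk
          simp only [List.length_cons, List.length_take]
          omega
      rw [e3]
      refine Finset.sum_nbij' (fun u => u.length) (fun k => w.take k) ?_ ?_ ?_ ?_ ?_
      · intro u hu
        rw [Finset.mem_filter, mem_wds] at hu
        rw [Finset.mem_filter, Finset.mem_range]
        exact ⟨by have := hu.2.length_le; omega, hu.1⟩
      · intro k hk
        rw [Finset.mem_filter, Finset.mem_range] at hk
        rw [Finset.mem_filter, mem_wds]
        refine ⟨?_, List.take_prefix k w⟩
        rw [List.length_take]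
        omega
      · intro u hu
        rw [Finset.mem_filter] at hu
        exact (List.prefix_iff_eq_take.1 hu.2).symm
      · intro k hk
        rw [Finset.mem_filter, Finset.mem_range] at hk
        simp only [List.length_take]
        omega
      · intro u hu
        rw [Finset.mem_filter] at hu
        have := List.prefix_iff_eq_take.1 hu.2
        rw [← this]

end

section

variable {D : Type} [DivisionRing D] {ι : Type} [Fintype ι] [DecidableEq ι]

/-- right multiplication -/
def TT (M : Matrix ι ι D) : Module.End D (ι → D) := M.vecMulLinear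

omit [DecidableEq ι] in
theorem TT_mul (M N : Matrix ι ι D) : TT M * TT N = TT (N * M) := by
  apply LinearMap.ext
  intro v
  change (v ᵥ* N) ᵥ* M = v ᵥ* (N * M)
  rw [Matrix.vecMul_vecMul]

theorem TT_one : TT (1 : Matrix ι ι D) = 1 := by
  apply LinearMap.ext
  intro v
  change v ᵥ* 1 = v
  rw [Matrix.vecMul_one]

theorem TT_pow (M : Matrix ι ι D) (k : ℕ) : TT M ^ k = TT (M ^ k) := by
  induction k with
  | zero => rw [pow_zero, pow_zero, TT_one]
  | succ k ih => rw [pow_succ, ih, TT_mul, ← pow_succ']

theorem TT_eq_zero {M : Matrix ι ι D} (h : TT M = 0) : M = 0 := by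
  ext i j
  have h1 : TT M (Pi.single i 1) = 0 := by rw [h]; rfl
  have h2 := congrFun h1 j
  change (Pi.single i 1 ᵥ* M) j = 0 at h2
  rw [Matrix.single_one_vecMul] at h2
  exact h2

theorem TT_list {n : ℕ} (Q : Fin n → Matrix ι ι D) (w : Wd n) :
    (w.map (fun i => TT (Q i))).prod = TT ((w.reverse.map Q).prod) := by
  induction w with
  | nil => simp [TT_one]
  | cons i w ih =>
    rw [List.map_cons, List.prod_cons, ih, TT_mul, List.reverse_cons, List.map_append,
      List.prod_append]
    simp

end

theorem pen (h : S_LEV) : S_PEN := by
  intro D _ n p d c hd hc hnil g g0 hg w hw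
  have h0 : ([] : Wd n) ∈ wds n d := (mem_wds d []).2 (by simp only [List.length_nil]; omega)
  let S : Set (Module.End D (Ix n p d → D)) :=
    {T | ∃ w : Wd n, w ≠ [] ∧ T = TT ((w.map (QM d c)).prod)}
  have hS1 : ∀ a ∈ S, ∀ b ∈ S, a * b ∈ S := by
    rintro a ⟨w, hw, rfl⟩ b ⟨w', hw', rfl⟩
    refine ⟨w' ++ w, by simp [hw], ?_⟩
    rw [TT_mul, List.map_append, List.prod_append]
  have hS2 : ∀ a ∈ S, IsNilpotent a := by
    rintro a ⟨w, hw, rfl⟩
    obtain ⟨k, hk⟩ := hnil w hw
    refine ⟨k, ?_⟩
    rw [TT_pow, hk]
    apply LinearMap.ext
    intro v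
    change v ᵥ* 0 = 0
    rw [Matrix.vecMul_zero]
  have hfr : Module.finrank D (Ix n p d → D) = (wds n d).card * p := by
    rw [Module.finrank_fintype_fun_eq_card, Fintype.card_prod, Fintype.card_coe, Fintype.card_fin]
  have key := h D (Ix n p d → D) S hS1 hS2 (w.map (fun i => TT (QM d c i))) ?_ ?_
  · rw [TT_list] at key
    have key2 := TT_eq_zero key
    ext a b
    have := row c hc g g0 hg h0 a w ⟨[], h0⟩ b
    unfold PP at this
    rw [key2] at this
    simp only [Matrix.zero_apply, List.nil_prefix, if_true, List.length_nil, List.drop_zero] at this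
    rw [Matrix.zero_apply]
    exact this.symm
  · intro a ha
    obtain ⟨i, _, rfl⟩ := List.mem_map.1 ha
    exact ⟨[i], by simp, by simp⟩
  · rw [hfr, List.length_map]
    exact hw

end Pool.Agent.Q164.GE
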